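import Pool.Agent.Work.MP_e7bfc9_mtc.All

/-!
# MP_e7bfc9_nt: the metric form

For every `m` and almost every choice of pairs `(t_i, a_i)`, `i < m`, of positive reals there are
infinitely many primes `q_0` such that all terms of
`q_{i+1} = ⌊t_i (p_{q_i} - q_i + 1)^(a_i)⌋`, `i < m`, are prime.  The problem is the case
`(t_i, a_i) = (1, 1)`, for every `m`.
-/

set_option autoImplicit false

open MeasureTheory

namespace Pool.Agent.Results.MP_e7bfc9_nt.AlmostAllChains

/-- `p_n - n + 1` for `n ≥ 1`, where `p_n` is the `n`-th prime. -/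
noncomputable def step (n : ℕ) : ℕ := Nat.nth Nat.Prime (n - 1) - n + 1

/-- The next term: `⌊t (p_n - n + 1)^a⌋`, `q = (t, a)`. -/
noncomputable def next (q : ℝ × ℝ) (n : ℕ) : ℕ := ⌊q.1 * (step n : ℝ) ^ q.2⌋₊

/-- All `m` terms after `p` of the sequence with parameters `s` are prime. -/
def Chain : (m : ℕ) → (Fin m → ℝ × ℝ) → ℕ → Prop
  | 0, _, _ => True
  | m + 1, s, p => (next (s 0) p).Prime ∧ Chain m (fun i => s i.succ) (next (s 0) p)

theorem chain_iff (m : ℕ) (s : Fin m → ℝ × ℝ) (p : ℕ) : Chain m s p ↔ Pool.Mtc.ChainP m s p := by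
  induction m generalizing p with
  | zero => exact Iff.rfl
  | succ m ih =>
    show _ ∧ _ ↔ _ ∧ _
    rw [ih]
    exact Iff.rfl

theorem result (m : ℕ) : ∀ᵐ s : Fin m → ℝ × ℝ, (∀ i, 0 < (s i).1 ∧ 0 < (s i).2) →
    {p : ℕ | p.Prime ∧ Chain m s p}.Infinite := by
  filter_upwards [Pool.Mtc.all_CHN m] with s hs hpos
  have h := hs hpos
  simpa only [chain_iff] using h

end Pool.Agent.Results.MP_e7bfc9_nt.AlmostAllChains
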